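import Pool.Agent.Helper46.T5.Stmts

set_option autoImplicit false

/-!
MP_2f9829_co, module LOC: first order expansion of the chart.
-/

open Finset MeasureTheory Filter Topology

namespace Pool.Agent.Helper93.T5

open Pool.Agent.Helper15.T4
open Pool.Agent.Helper46.T5

/-- First order expansion of a product. -/
theorem prod_exp {ι : Type} [DecidableEq ι] (x c d : ι → ℝ) (A ε : ℝ) (hA : 0 ≤ A) (hε : 0 ≤ ε)
    (hε1 : ε ≤ 1) (hx : ∀ p, |x p| ≤ 1) (hc : ∀ p, |c p| ≤ 1) (hd : ∀ p, |d p| ≤ A * ε)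
    (hr : ∀ p, |x p - c p - d p| ≤ A * ε ^ 2) (F : Finset ι) :
    |∏ p ∈ F, x p - ∏ p ∈ F, c p - ∑ p ∈ F, d p * ∏ q ∈ F.erase p, c q| ≤
      ((F.card : ℝ) * A + 2 * A ^ 2 * (F.card : ℝ) ^ 2) * ε ^ 2 := by
  induction F using Finset.induction_on with
  | empty => simp
  | @insert r F hrF ih =>
    have hP : |∏ p ∈ F, c p| ≤ 1 := by
      rw [Finset.abs_prod]
      exact Finset.prod_le_one (fun _ _ => abs_nonneg _) (fun i _ => hc i)
    have hD : |∑ p ∈ F, d p * ∏ q ∈ F.erase p, c q| ≤ (F.card : ℝ) * (A * ε) := by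
      refine (Finset.abs_sum_le_sum_abs _ _).trans ?_
      rw [← nsmul_eq_mul]
      refine Finset.sum_le_card_nsmul _ _ _ ?_
      intro p _
      rw [abs_mul, Finset.abs_prod]
      have h1 : ∏ q ∈ F.erase p, |c q| ≤ 1 :=
        Finset.prod_le_one (fun i _ => abs_nonneg _) (fun i _ => hc i)
      calc |d p| * ∏ q ∈ F.erase p, |c q| ≤ |d p| * 1 :=
            mul_le_mul_of_nonneg_left h1 (abs_nonneg _)
        _ ≤ A * ε := by rw [mul_one]; exact hd p
    have hxc : |x r - c r| ≤ 2 * A * ε := by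
      have h1 : x r - c r = (x r - c r - d r) + d r := by ring
      rw [h1]
      refine (abs_add_le _ _).trans ?_
      have h2 := hr r
      have h3 := hd r
      have h4 : A * ε ^ 2 ≤ A * ε := by
        apply mul_le_mul_of_nonneg_left _ hA
        nlinarith
      linarith
    have hsum : ∑ p ∈ insert r F, d p * ∏ q ∈ (insert r F).erase p, c q =
        d r * ∏ q ∈ F, c q + c r * ∑ p ∈ F, d p * ∏ q ∈ F.erase p, c q := by
      rw [Finset.sum_insert hrF, Finset.erase_insert hrF, Finset.mul_sum]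
      congr 1
      apply Finset.sum_congr rfl
      intro p hp
      have hne : r ≠ p := fun h => hrF (h ▸ hp)
      rw [Finset.erase_insert_of_ne hne, Finset.prod_insert (fun h => hrF (Finset.mem_of_mem_erase h))]
      ring
    rw [Finset.prod_insert hrF, Finset.prod_insert hrF, hsum]
    have key : x r * ∏ p ∈ F, x p - c r * ∏ p ∈ F, c p -
        (d r * ∏ q ∈ F, c q + c r * ∑ p ∈ F, d p * ∏ q ∈ F.erase p, c q) =
        x r * (∏ p ∈ F, x p - ∏ p ∈ F, c p - ∑ p ∈ F, d p * ∏ q ∈ F.erase p, c q) +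
        (x r - c r - d r) * ∏ p ∈ F, c p +
        (x r - c r) * ∑ p ∈ F, d p * ∏ q ∈ F.erase p, c q := by ring
    rw [key, Finset.card_insert_of_notMem hrF]
    set E := ∏ p ∈ F, x p - ∏ p ∈ F, c p - ∑ p ∈ F, d p * ∏ q ∈ F.erase p, c q with hE
    have e1 : |x r * E| ≤ ((F.card : ℝ) * A + 2 * A ^ 2 * (F.card : ℝ) ^ 2) * ε ^ 2 := by
      rw [abs_mul]
      calc |x r| * |E| ≤ 1 * |E| := mul_le_mul_of_nonneg_right (hx r) (abs_nonneg _)
        _ = |E| := one_mul _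
        _ ≤ _ := ih
    have e2 : |(x r - c r - d r) * ∏ p ∈ F, c p| ≤ A * ε ^ 2 := by
      rw [abs_mul]
      calc |x r - c r - d r| * |∏ p ∈ F, c p| ≤ |x r - c r - d r| * 1 :=
            mul_le_mul_of_nonneg_left hP (abs_nonneg _)
        _ ≤ A * ε ^ 2 := by rw [mul_one]; exact hr r
    have e3 : |(x r - c r) * ∑ p ∈ F, d p * ∏ q ∈ F.erase p, c q| ≤
        (2 * A * ε) * ((F.card : ℝ) * (A * ε)) := by
      rw [abs_mul]
      exact mul_le_mul hxc hD (abs_nonneg _) (by positivity)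
    have e4 := abs_add_le (x r * E + (x r - c r - d r) * ∏ p ∈ F, c p)
      ((x r - c r) * ∑ p ∈ F, d p * ∏ q ∈ F.erase p, c q)
    have e5 := abs_add_le (x r * E) ((x r - c r - d r) * ∏ p ∈ F, c p)
    push_cast
    have e6 : 0 ≤ A ^ 2 * ε ^ 2 := by positivity
    have e7 : 0 ≤ (F.card : ℝ) := Nat.cast_nonneg _
    nlinarith [mul_nonneg e6 e7]

theorem nsq3 (v : Fin 3 → ℝ) : nsq v = v 0 ^ 2 + v 1 ^ 2 + v 2 ^ 2 := by
  unfold nsq
  rw [Fin.sum_univ_three]

theorem nsq_nonneg' {ι : Type} [Fintype ι] (x : ι → ℝ) : 0 ≤ nsq x :=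
  Finset.sum_nonneg (fun _ _ => sq_nonneg _)

theorem skew_apply_abs (v : Fin 3 → ℝ) (i j : Fin 3) : |skew v i j| ≤ Real.sqrt (nsq v) := by
  apply Real.abs_le_sqrt
  rw [nsq3]
  fin_cases i <;> fin_cases j <;> simp [skew] <;> nlinarith [sq_nonneg (v 0), sq_nonneg (v 1),
    sq_nonneg (v 2)]

theorem Cay_apply (v : Fin 3 → ℝ) (i j : Fin 3) : Cay v i j =
    (1 + nsq v)⁻¹ * ((1 - nsq v) * (1 : M3) i j + 2 * (v i * v j) + 2 * skew v i j) := by
  unfold Cay
  simp only [Matrix.smul_apply, Matrix.add_apply, Matrix.vecMulVec_apply, smul_eq_mul]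

theorem Cay_abs (v : Fin 3 → ℝ) (i j : Fin 3) : |Cay v i j| ≤ 1 := by
  have h0 : 0 < 1 + nsq v := by linarith [nsq_nonneg' v]
  rw [Cay_apply, abs_mul, abs_of_pos (inv_pos.mpr h0), inv_mul_le_iff₀ h0, mul_one, abs_le, nsq3]
  fin_cases i <;> fin_cases j <;> simp [skew] <;> constructor <;>
    nlinarith [sq_nonneg (v 0), sq_nonneg (v 1), sq_nonneg (v 2), sq_nonneg (v 0 - v 1),
      sq_nonneg (v 0 + v 1), sq_nonneg (v 0 - v 2), sq_nonneg (v 0 + v 2), sq_nonneg (v 1 - v 2),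
      sq_nonneg (v 1 + v 2), sq_nonneg (v 0 - 1), sq_nonneg (v 0 + 1), sq_nonneg (v 1 - 1),
      sq_nonneg (v 1 + 1), sq_nonneg (v 2 - 1), sq_nonneg (v 2 + 1)]

theorem Cay_exp (v : Fin 3 → ℝ) (hv : nsq v ≤ 1) (i j : Fin 3) :
    |Cay v i j - (1 : M3) i j - 2 * skew v i j| ≤ 6 * nsq v := by
  have hn := nsq_nonneg' v
  have h0 : 0 < 1 + nsq v := by linarith
  have h1 : Cay v i j - (1 : M3) i j - 2 * skew v i j =
      (1 + nsq v)⁻¹ * (-(2 * nsq v * (1 : M3) i j) + 2 * (v i * v j) - 2 * nsq v * skew v i j) := by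
    rw [Cay_apply]
    field_simp
    ring
  have h2 : |(1 : M3) i j| ≤ 1 := by
    rw [Matrix.one_apply]
    split_ifs <;> simp
  have h3 : |skew v i j| ≤ 1 := (skew_apply_abs v i j).trans (by
    rw [Real.sqrt_le_one]
    exact hv)
  have hvi : ∀ i, v i ^ 2 ≤ nsq v := fun i =>
    Finset.single_le_sum (f := fun i => v i ^ 2) (fun _ _ => sq_nonneg _) (Finset.mem_univ i)
  have h4 : |v i * v j| ≤ nsq v := by
    rw [abs_le]
    constructor <;> nlinarith [hvi i, hvi j, sq_nonneg (v i + v j), sq_nonneg (v i - v j)]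
  rw [h1, abs_mul, abs_of_pos (inv_pos.mpr h0), inv_mul_le_iff₀ h0]
  have h5 : |-(2 * nsq v * (1 : M3) i j) + 2 * (v i * v j) - 2 * nsq v * skew v i j| ≤
      6 * nsq v := by
    rw [abs_le] at h2 h3 h4 ⊢
    constructor <;> nlinarith [mul_le_mul_of_nonneg_left h2.1 hn, mul_le_mul_of_nonneg_left h2.2 hn,
      mul_le_mul_of_nonneg_left h3.1 hn, mul_le_mul_of_nonneg_left h3.2 hn]
  nlinarith [mul_nonneg hn hn]

/-- The basis vectors of the tangential directions. -/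
theorem eb_update {K : ℕ} (p : Fin K) (k : Fin 9) (a : Fin K × Fin 2 → Fin 3) :
    eb (Function.update (0 : Fin K → Fin 9) p k) a =
      Em k (a (p, 0)) (a (p, 1)) * ∏ q ∈ univ.erase p, (1 : M3) (a (q, 0)) (a (q, 1)) / Real.sqrt 3 := by
  unfold eb
  rw [← Finset.mul_prod_erase univ _ (Finset.mem_univ p), Function.update_self]
  congr 1
  apply Finset.prod_congr rfl
  intro q hq
  rw [Function.update_of_ne (Finset.ne_of_mem_erase hq)]
  simp only [Pi.zero_apply, Em, if_true, Matrix.smul_apply, smul_eq_mul]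
  rw [div_eq_inv_mul]

theorem Em_skew (v : Fin 3 → ℝ) (i j : Fin 3) :
    ∑ k : Fin 3, Real.sqrt (8 / 3) * v k * Em ⟨k.val + 1, by omega⟩ i j =
      2 * skew v i j / Real.sqrt 3 := by
  have h : Real.sqrt (8 / 3) = 2 * Real.sqrt 2 / Real.sqrt 3 := by
    rw [Real.sqrt_div (by norm_num), show (8 : ℝ) = 2 ^ 2 * 2 by norm_num,
      Real.sqrt_mul (by norm_num), Real.sqrt_sq (by norm_num)]
  have h2 : Real.sqrt 2 ≠ 0 := by positivity
  have h3 : Real.sqrt 3 ≠ 0 := by positivity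
  have e1 : Em ⟨(0 : Fin 3).val + 1, by omega⟩ = (Real.sqrt 2)⁻¹ • skew (Pi.single 0 1) := by
    have : (⟨(0 : Fin 3).val + 1, by omega⟩ : Fin 9) = 1 := rfl
    rw [this]; simp [Em]
  have e2 : Em ⟨(1 : Fin 3).val + 1, by omega⟩ = (Real.sqrt 2)⁻¹ • skew (Pi.single 1 1) := by
    have : (⟨(1 : Fin 3).val + 1, by omega⟩ : Fin 9) = 2 := rfl
    rw [this]; simp [Em]
  have e3 : Em ⟨(2 : Fin 3).val + 1, by omega⟩ = (Real.sqrt 2)⁻¹ • skew (Pi.single 2 1) := by
    have : (⟨(2 : Fin 3).val + 1, by omega⟩ : Fin 9) = 3 := rfl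
    rw [this]; simp [Em]
  rw [Fin.sum_univ_three, e1, e2, e3, h]
  fin_cases i <;> fin_cases j <;> simp [skew] <;> field_simp

theorem Lm_apply {K : ℕ} (v : Fin K → Fin 3 → ℝ) (a : Fin K × Fin 2 → Fin 3) :
    Lm v a = ∑ p, 2 * skew (v p) (a (p, 0)) (a (p, 1)) / Real.sqrt 3 *
      ∏ q ∈ univ.erase p, (1 : M3) (a (q, 0)) (a (q, 1)) / Real.sqrt 3 := by
  unfold Lm
  apply Finset.sum_congr rfl
  intro p _
  rw [← Em_skew, Finset.sum_mul]
  apply Finset.sum_congr rfl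
  intro i _
  rw [eb_update]
  ring

theorem st_LOC : ST_LOC := by
  intro K
  refine ⟨9 ^ K * ((K : ℝ) * 6 + 2 * 6 ^ 2 * (K : ℝ) ^ 2) ^ 2 + 1, by positivity, ?_⟩
  intro v hv
  set S := ∑ p, nsq (v p) with hS
  have hS0 : 0 ≤ S := Finset.sum_nonneg (fun p _ => nsq_nonneg' _)
  have hpS : ∀ p, nsq (v p) ≤ S := fun p =>
    Finset.single_le_sum (f := fun p => nsq (v p)) (fun i _ => nsq_nonneg' _) (Finset.mem_univ p)
  set ε := Real.sqrt S with hε
  have hε0 : 0 ≤ ε := Real.sqrt_nonneg _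
  have hε2 : ε ^ 2 = S := Real.sq_sqrt hS0
  have hε1 : ε ≤ 1 := by
    rw [hε, Real.sqrt_le_one]
    exact hv
  have h3 : (1 : ℝ) ≤ Real.sqrt 3 := by
    rw [Real.one_le_sqrt]
    norm_num
  have h30 : 0 < Real.sqrt 3 := by linarith
  have hdiv : ∀ (x b : ℝ), |x| ≤ b → |x / Real.sqrt 3| ≤ b := by
    intro x b hx
    rw [abs_div, abs_of_pos h30]
    exact (div_le_self (abs_nonneg _) h3).trans hx
  have hpt : ∀ a : Fin K × Fin 2 → Fin 3,
      |pt (Equiv.refl _) (fun p => Cay (v p)) a - u0 K a - Lm v a| ≤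
        ((K : ℝ) * 6 + 2 * 6 ^ 2 * (K : ℝ) ^ 2) * ε ^ 2 := by
    intro a
    rw [Lm_apply]
    unfold u0 pt
    simp only [Equiv.refl_apply]
    have := prod_exp (fun p => Cay (v p) (a (p, 0)) (a (p, 1)) / Real.sqrt 3)
      (fun p => (1 : M3) (a (p, 0)) (a (p, 1)) / Real.sqrt 3)
      (fun p => 2 * skew (v p) (a (p, 0)) (a (p, 1)) / Real.sqrt 3) 6 ε (by norm_num) hε0 hε1
      (fun p => hdiv _ _ (Cay_abs _ _ _))
      (fun p => hdiv _ _ (by rw [Matrix.one_apply]; split_ifs <;> simp))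
      (fun p => hdiv _ _ (by
        rw [abs_mul, abs_of_pos (by norm_num : (0 : ℝ) < 2)]
        have h1 := skew_apply_abs (v p) (a (p, 0)) (a (p, 1))
        have h2 : Real.sqrt (nsq (v p)) ≤ ε := Real.sqrt_le_sqrt (hpS p)
        linarith))
      (fun p => by
        rw [← sub_div, ← sub_div]
        apply hdiv
        refine (Cay_exp (v p) ((hpS p).trans hv) _ _).trans ?_
        rw [hε2]
        linarith [hpS p])
      univ
    rw [Finset.card_univ, Fintype.card_fin] at this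
    exact this
  have hb0 : 0 ≤ ((K : ℝ) * 6 + 2 * 6 ^ 2 * (K : ℝ) ^ 2) := by positivity
  calc nsq (fun a => pt (Equiv.refl _) (fun p => Cay (v p)) a - u0 K a - Lm v a)
      ≤ ∑ _a : Fin K × Fin 2 → Fin 3, (((K : ℝ) * 6 + 2 * 6 ^ 2 * (K : ℝ) ^ 2) * ε ^ 2) ^ 2 := by
        unfold nsq
        apply Finset.sum_le_sum
        intro a _
        rw [← sq_abs]
        exact pow_le_pow_left₀ (abs_nonneg _) (hpt a) 2
    _ = 9 ^ K * ((K : ℝ) * 6 + 2 * 6 ^ 2 * (K : ℝ) ^ 2) ^ 2 * S ^ 2 := by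
        rw [Finset.sum_const, Finset.card_univ, hε2]
        simp only [Fintype.card_fun, Fintype.card_prod, Fintype.card_fin, nsmul_eq_mul]
        rw [mul_comm K 2, pow_mul]
        push_cast
        ring
    _ ≤ (9 ^ K * ((K : ℝ) * 6 + 2 * 6 ^ 2 * (K : ℝ) ^ 2) ^ 2 + 1) * S ^ 2 := by
        nlinarith [sq_nonneg S]

end Pool.Agent.Helper93.T5
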