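import Pool.Agent.Helper93.T5.LOC

set_option autoImplicit false

/-!
MP_2f9829_co, module LOW2: local lower bound of the gauge fixing function.
-/

open Finset MeasureTheory Filter Topology

namespace Pool.Agent.Helper93.T5

open Pool.Agent.Helper15.T4
open Pool.Agent.Helper46.T5

theorem nsq_cont {ι : Type} [Fintype ι] : Continuous (fun x : ι → ℝ => nsq x) := by
  unfold nsq
  fun_prop

theorem skew_cont : Continuous skew := by
  refine continuous_pi (fun i => continuous_pi (fun j => ?_))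
  fin_cases i <;> fin_cases j <;> simp [skew] <;> fun_prop

theorem Cay_cont : Continuous Cay := by
  have h0 : ∀ v : Fin 3 → ℝ, 1 + nsq v ≠ 0 := fun v => by
    have := nsq_nonneg' v
    positivity
  refine continuous_pi (fun i => continuous_pi (fun j => ?_))
  have hs : Continuous (fun v : Fin 3 → ℝ => skew v i j) :=
    (continuous_apply j).comp ((continuous_apply i).comp skew_cont)
  have hn : Continuous (fun v : Fin 3 → ℝ => nsq v) := nsq_cont
  simp only [Cay_apply]
  refine Continuous.mul (Continuous.inv₀ (by fun_prop) h0) ?_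
  fun_prop

theorem rho_cont : Continuous rho := by
  unfold rho
  have hn : Continuous (fun v : Fin 3 → ℝ => nsq v) := nsq_cont
  refine Continuous.inv₀ (by fun_prop) ?_
  intro v
  have := nsq_nonneg' v
  positivity

theorem rho_pos (v : Fin 3 → ℝ) : 0 < rho v := by
  unfold rho
  have := nsq_nonneg' v
  positivity

theorem pt_cont {J : Type} {K : ℕ} (φ : Fin K × Fin 2 ≃ J) (a : J → Fin 3) :
    Continuous (fun O : Fin K → M3 => pt φ O a) := by
  unfold pt
  refine continuous_finsetProd _ (fun p _ => ?_)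
  exact ((continuous_apply _).comp ((continuous_apply _).comp (continuous_apply p))).div_const _

/-- The integrand of `Psi`. -/
noncomputable def ker {K : ℕ} (N : ℕ) (x : (Fin K × Fin 2 → Fin 3) → ℝ) (s : ℤˣ)
    (π : Equiv.Perm (Fin K × Fin 2)) (v : Fin K → Fin 3 → ℝ) : ℝ :=
  Real.exp (-(N : ℝ) * nsq (fun a => x a - ((s : ℤ) : ℝ) * pt π (fun p => Cay (v p)) a)) *
    ∏ p, rho (v p)

theorem ker_cont {K : ℕ} (N : ℕ) (x : (Fin K × Fin 2 → Fin 3) → ℝ) (s : ℤˣ)
    (π : Equiv.Perm (Fin K × Fin 2)) : Continuous (ker N x s π) := by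
  unfold ker
  have h1 : Continuous (fun v : Fin K → Fin 3 → ℝ => fun p => Cay (v p)) :=
    continuous_pi (fun p => Cay_cont.comp (continuous_apply p))
  have h2 : ∀ a, Continuous (fun v : Fin K → Fin 3 → ℝ => pt π (fun p => Cay (v p)) a) :=
    fun a => (pt_cont π a).comp h1
  have h3 : Continuous (fun v : Fin K → Fin 3 → ℝ =>
      nsq (fun a => x a - ((s : ℤ) : ℝ) * pt π (fun p => Cay (v p)) a)) := by
    apply nsq_cont.comp
    refine continuous_pi (fun a => ?_)
    exact continuous_const.sub (continuous_const.mul (h2 a))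
  have h4 : Continuous (fun v : Fin K → Fin 3 → ℝ => ∏ p, rho (v p)) :=
    continuous_finsetProd _ (fun p _ => rho_cont.comp (continuous_apply p))
  exact (Real.continuous_exp.comp (continuous_const.mul h3)).mul h4

theorem ker_pos {K : ℕ} (N : ℕ) (x : (Fin K × Fin 2 → Fin 3) → ℝ) (s : ℤˣ)
    (π : Equiv.Perm (Fin K × Fin 2)) (v : Fin K → Fin 3 → ℝ) : 0 < ker N x s π v :=
  mul_pos (Real.exp_pos _) (Finset.prod_pos (fun _ _ => rho_pos _))

theorem ker_int (hA : ST_AV1) {K : ℕ} (N : ℕ) (x : (Fin K × Fin 2 → Fin 3) → ℝ) (s : ℤˣ)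
    (π : Equiv.Perm (Fin K × Fin 2)) : Integrable (ker N x s π) := by
  refine Integrable.mono' (hA K).2 (ker_cont N x s π).aestronglyMeasurable
    (Filter.Eventually.of_forall (fun v => ?_))
  rw [Real.norm_eq_abs, abs_of_pos (ker_pos N x s π v)]
  unfold ker
  have h1 : Real.exp (-(N : ℝ) * nsq (fun a => x a - ((s : ℤ) : ℝ) *
      pt π (fun p => Cay (v p)) a)) ≤ 1 := by
    rw [Real.exp_le_one_iff]
    have h2 := nsq_nonneg' (fun a => x a - ((s : ℤ) : ℝ) * pt π (fun p => Cay (v p)) a)
    have h3 : (0 : ℝ) ≤ N := Nat.cast_nonneg N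
    nlinarith [mul_nonneg h3 h2]
  have h4 : 0 ≤ ∏ p, rho (v p) := Finset.prod_nonneg (fun p _ => (rho_pos _).le)
  nlinarith

theorem Psi_eq (K N : ℕ) (x : (Fin K × Fin 2 → Fin 3) → ℝ) :
    Psi K N x = ∑ s : ℤˣ, ∑ π : Equiv.Perm (Fin K × Fin 2), ∫ v, ker N x s π v := rfl

/-- A lower bound of `Psi` by the integral over a cube. -/
theorem Psi_cube (hA : ST_AV1) (K N : ℕ) (x : (Fin K × Fin 2 → Fin 3) → ℝ)
    (v0 : Fin K → Fin 3 → ℝ) (s m : ℝ) (hs : 0 ≤ s)
    (hb : ∀ v : Fin K → Fin 3 → ℝ, (∀ p i, |v p i - v0 p i| ≤ s) →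
      m ≤ Real.exp (-(N : ℝ) * nsq (fun a => x a - pt (Equiv.refl _) (fun p => Cay (v p)) a)) *
        ∏ p, rho (v p)) : (2 * s) ^ (3 * K) * m ≤ Psi K N x := by
  have h1 : ∫ v, ker N x 1 (Equiv.refl _) v ≤ Psi K N x := by
    rw [Psi_eq]
    refine le_trans ?_ (Finset.single_le_sum (f := fun s : ℤˣ =>
      ∑ π : Equiv.Perm (Fin K × Fin 2), ∫ v, ker N x s π v) (fun s _ => Finset.sum_nonneg
        (fun π _ => integral_nonneg (fun v => (ker_pos N x s π v).le))) (Finset.mem_univ (1 : ℤˣ)))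
    exact Finset.single_le_sum (f := fun π : Equiv.Perm (Fin K × Fin 2) => ∫ v, ker N x 1 π v)
      (fun π _ => integral_nonneg (fun v => (ker_pos N x 1 π v).le)) (Finset.mem_univ (Equiv.refl _))
  have h2 : ∫ v in Metric.closedBall v0 s, ker N x 1 (Equiv.refl _) v ≤
      ∫ v, ker N x 1 (Equiv.refl _) v :=
    setIntegral_le_integral (ker_int hA N x 1 _)
      (Filter.Eventually.of_forall (fun v => (ker_pos N x 1 _ v).le))
  have hvol : volume (Metric.closedBall v0 s) = ENNReal.ofReal ((2 * s) ^ (3 * K)) := by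
    rw [volume_pi_closedBall _ hs]
    simp only [Real.volume_pi_closedBall _ hs, Fintype.card_fin, Finset.prod_const,
      Finset.card_univ]
    rw [← ENNReal.ofReal_pow (by positivity), ← pow_mul]
  have h3 : ∫ _v in Metric.closedBall v0 s, m ≤
      ∫ v in Metric.closedBall v0 s, ker N x 1 (Equiv.refl _) v := by
    refine setIntegral_mono_on ?_ (ker_int hA N x 1 _).integrableOn
      Metric.isClosed_closedBall.measurableSet ?_
    · exact integrableOn_const (by rw [hvol]; exact ENNReal.ofReal_ne_top) (by simp)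
    · intro v hv
      have := hb v (fun p i => by
        rw [Metric.mem_closedBall, dist_pi_le_iff hs] at hv
        have h4 := hv p
        rw [dist_pi_le_iff hs] at h4
        have h5 := h4 i
        rwa [Real.dist_eq] at h5)
      unfold ker
      simpa using this
  rw [setIntegral_const, smul_eq_mul, Measure.real, hvol,
    ENNReal.toReal_ofReal (by positivity)] at h3
  exact h3.trans (h2.trans h1)

theorem nsq_smul_add {K : ℕ} (v w : Fin K → Fin 3 → ℝ) :
    Lm (fun p i => v p i + w p i) = fun a => Lm v a + Lm w a := by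
  funext a
  unfold Lm
  rw [← Finset.sum_add_distrib]
  apply Finset.sum_congr rfl
  intro p _
  rw [← Finset.sum_add_distrib]
  apply Finset.sum_congr rfl
  intro i _
  ring

/-- Cauchy-Schwarz for `nsq` of a difference. -/
theorem nsq_sub_le {ι : Type} [Fintype ι] (x y : ι → ℝ) :
    nsq (fun a => x a - y a) ≤ (Real.sqrt (nsq x) + Real.sqrt (nsq y)) ^ 2 := by
  have hx := nsq_nonneg' x
  have hy := nsq_nonneg' y
  have h1 : (∑ a, x a * y a) ^ 2 ≤ nsq x * nsq y := Finset.sum_mul_sq_le_sq_mul_sq _ _ _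
  have h2 : |∑ a, x a * y a| ≤ Real.sqrt (nsq x) * Real.sqrt (nsq y) := by
    rw [← Real.sqrt_mul hx]
    exact Real.abs_le_sqrt h1
  have h3 : nsq (fun a => x a - y a) = nsq x + nsq y - 2 * ∑ a, x a * y a := by
    unfold nsq
    rw [Finset.mul_sum, ← Finset.sum_add_distrib, ← Finset.sum_sub_distrib]
    apply Finset.sum_congr rfl
    intro a _
    ring
  rw [h3, add_sq, Real.sq_sqrt hx, Real.sq_sqrt hy]
  have := neg_le_abs (∑ a, x a * y a)
  linarith

theorem st_LOW2 (hT : ST_TANP) (hA : ST_AV1) : ST_LOW2 := by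
  intro K
  obtain ⟨C0, hC0, hLOC⟩ := st_LOC K
  -- constants
  set s0 : ℝ := 1 / (4 * ((K : ℝ) + 1)) with hs0
  set R : ℝ := Real.sqrt C0 with hR
  have hK0 : (0 : ℝ) ≤ K := Nat.cast_nonneg K
  have hs0p : 0 < s0 := by positivity
  have hR0 : 0 < R := Real.sqrt_pos.mpr hC0
  have hR2 : R ^ 2 = C0 := Real.sq_sqrt hC0.le
  have hKs : (K : ℝ) * s0 ^ 2 ≤ 1 / 16 := by
    have h1 : s0 ^ 2 = 1 / (16 * ((K : ℝ) + 1) ^ 2) := by
      rw [hs0]
      field_simp
      norm_num
    rw [h1, mul_one_div, div_le_div_iff₀ (by positivity) (by norm_num)]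
    nlinarith
  -- total bound of the exponent
  refine ⟨Real.exp (-(1 + 20 * R + 10 * C0)) * (4 * Real.pi ^ 2)⁻¹ ^ K * (2 * s0) ^ (3 * K), 1 / 2,
    20 * R + 10 * C0, by positivity, by norm_num, ?_⟩
  intro N hN h hh
  have hN1 : (1 : ℝ) ≤ N := by exact_mod_cast hN
  have hN0 : (0 : ℝ) < N := by linarith
  obtain ⟨v0, hv0, hD, hw⟩ := hT K h
  have hn0 := nsq_nonneg' h
  have hD0 : 0 ≤ nsq h - tq K h := by rw [← hD]; exact nsq_nonneg' _
  set a := Real.sqrt (nsq h) with ha
  have ha0 : 0 ≤ a := Real.sqrt_nonneg _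
  have ha2 : a ^ 2 = nsq h := Real.sq_sqrt hn0
  have ha1 : a ≤ 1 := by
    rw [ha, Real.sqrt_le_one]
    linarith
  set n := Real.sqrt N with hn
  have hn1 : 1 ≤ n := by
    rw [hn, Real.one_le_sqrt]
    exact hN1
  have hn2 : n ^ 2 = N := Real.sq_sqrt hN0.le
  have hnp : 0 < n := by linarith
  set m : ℝ := Real.exp (-(N : ℝ) * (nsq h - tq K h) - (20 * R + 10 * C0) * N * a ^ 3 -
    (1 + 20 * R + 10 * C0)) * (4 * Real.pi ^ 2)⁻¹ ^ K with hm
  have hcube := Psi_cube hA K N (fun b => u0 K b + h b) v0 (s0 / n) m (by positivity) ?_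
  · refine le_trans (le_of_eq ?_) hcube
    have h1 : (N : ℝ) ^ (3 * (K : ℝ) / 2) = n ^ (3 * K) := by
      rw [hn, Real.sqrt_eq_rpow, ← Real.rpow_natCast, ← Real.rpow_mul hN0.le]
      congr 1
      push_cast
      ring
    rw [h1, hm, show 2 * (s0 / n) = (2 * s0) / n by ring, div_pow,
      show -(N : ℝ) * (nsq h - tq K h) - (20 * R + 10 * C0) * N * a ^ 3 - (1 + 20 * R + 10 * C0) =
        -(1 + 20 * R + 10 * C0) + (-(N : ℝ) * (nsq h - tq K h) - (20 * R + 10 * C0) * N * a ^ 3) by
        ring, Real.exp_add]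
    ring
  · intro v hv
    -- the displacement
    set w : Fin K → Fin 3 → ℝ := fun p i => v p i - v0 p i with hwdef
    have hwv : v = fun p i => v0 p i + w p i := by
      funext p i
      simp [hwdef]
    have hwn : ∀ p, nsq (w p) ≤ 3 * s0 ^ 2 / N := by
      intro p
      rw [nsq3]
      have h1 : ∀ i, w p i ^ 2 ≤ s0 ^ 2 / N := by
        intro i
        rw [← sq_abs, ← hn2, ← div_pow]
        exact pow_le_pow_left₀ (abs_nonneg _) (hv p i) 2
      have := h1 0
      have := h1 1
      have := h1 2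
      rw [mul_div_assoc]
      linarith
    have hwS : ∑ p, nsq (w p) ≤ 3 * ((K : ℝ) * s0 ^ 2) / N := by
      refine (Finset.sum_le_card_nsmul _ _ _ (fun p _ => hwn p)).trans (le_of_eq ?_)
      rw [Finset.card_univ, Fintype.card_fin, nsmul_eq_mul]
      ring
    have hw0 : 0 ≤ ∑ p, nsq (w p) := Finset.sum_nonneg (fun p _ => nsq_nonneg' _)
    have hwS2 : ∑ p, nsq (w p) ≤ 3 / 16 / N := by
      refine hwS.trans ?_
      rw [div_le_div_iff_of_pos_right hN0]
      linarith
    have hv0S : ∑ p, nsq (v0 p) ≤ 3 / 8 * a ^ 2 := by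
      rw [ha2]
      linarith
    have hvS : ∑ p, nsq (v p) ≤ 3 / 4 * a ^ 2 + 3 / 8 / N := by
      have h1 : ∀ p, nsq (v p) ≤ 2 * nsq (v0 p) + 2 * nsq (w p) := by
        intro p
        have h2 : ∀ i, v p i = v0 p i + w p i := fun i => by simp [hwdef]
        rw [nsq3, nsq3, nsq3, h2, h2, h2]
        nlinarith [sq_nonneg (v0 p 0 - w p 0), sq_nonneg (v0 p 1 - w p 1),
          sq_nonneg (v0 p 2 - w p 2)]
      calc ∑ p, nsq (v p) ≤ ∑ p, (2 * nsq (v0 p) + 2 * nsq (w p)) :=
            Finset.sum_le_sum (fun p _ => h1 p)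
        _ = 2 * ∑ p, nsq (v0 p) + 2 * ∑ p, nsq (w p) := by
            rw [Finset.sum_add_distrib, Finset.mul_sum, Finset.mul_sum]
        _ ≤ 3 / 4 * a ^ 2 + 3 / 8 / N := by
            have e1 : 3 / 8 / (N : ℝ) = 2 * (3 / 16 / N) := by ring
            rw [e1]
            linarith
    have hvS0 : 0 ≤ ∑ p, nsq (v p) := Finset.sum_nonneg (fun p _ => nsq_nonneg' _)
    have hNi : 3 / 8 / (N : ℝ) ≤ 3 / 8 := div_le_self (by norm_num) hN1
    have hvS1 : ∑ p, nsq (v p) ≤ 1 := by
      have : a ^ 2 ≤ 1 / 2 := by rw [ha2]; exact hh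
      linarith
    have hE := hLOC v hvS1
    set E : (Fin K × Fin 2 → Fin 3) → ℝ :=
      fun b => pt (Equiv.refl _) (fun p => Cay (v p)) b - u0 K b - Lm v b with hEdef
    set L : (Fin K × Fin 2 → Fin 3) → ℝ := fun b => h b - Lm v b with hLdef
    have hLE : (fun b => u0 K b + h b - pt (Equiv.refl _) (fun p => Cay (v p)) b) =
        fun b => L b - E b := by
      funext b
      simp only [hEdef, hLdef]
      ring
    -- the main part
    have hL : nsq L = (nsq h - tq K h) + 8 / 3 * ∑ p, nsq (w p) := by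
      have e1 : L = fun b => (h b - Lm v0 b) - Lm w b := by
        funext b
        simp only [hLdef]
        rw [hwv, nsq_smul_add]
        ring
      have e2 : nsq (fun b => (h b - Lm v0 b) - Lm w b) = nsq (fun b => h b - Lm v0 b) +
          nsq (Lm w) - 2 * (ip (Lm w) h - ip (Lm w) (Lm v0)) := by
        unfold nsq ip
        rw [← Finset.sum_sub_distrib, Finset.mul_sum, ← Finset.sum_add_distrib,
          ← Finset.sum_sub_distrib]
        apply Finset.sum_congr rfl
        intro b _
        ring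
      have e3 : nsq (fun a => Lm v0 a + Lm w a) = nsq (Lm v0) + nsq (Lm w) +
          2 * ip (Lm w) (Lm v0) := by
        unfold nsq ip
        rw [Finset.mul_sum, ← Finset.sum_add_distrib, ← Finset.sum_add_distrib]
        apply Finset.sum_congr rfl
        intro b _
        ring
      rw [← nsq_smul_add, (hw _).2, (hw v0).2, (hw w).2] at e3
      have e4 : ∑ p, nsq (fun i => v0 p i + w p i) = ∑ p, nsq (v0 p) + ∑ p, nsq (w p) +
          2 * ∑ p, ip (w p) (v0 p) := by
        rw [Finset.mul_sum, ← Finset.sum_add_distrib, ← Finset.sum_add_distrib]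
        apply Finset.sum_congr rfl
        intro p _
        unfold nsq ip
        rw [Finset.mul_sum, ← Finset.sum_add_distrib, ← Finset.sum_add_distrib]
        apply Finset.sum_congr rfl
        intro b _
        ring
      rw [e1, e2, hD, (hw w).1, (hw w).2]
      rw [e4] at e3
      linarith
    have hLb : Real.sqrt (nsq L) ≤ a + 1 / n := by
      rw [Real.sqrt_le_left (by positivity), hL]
      have e1 : 8 / 3 * ∑ p, nsq (w p) ≤ (1 / n) ^ 2 := by
        rw [div_pow, hn2, one_pow]
        have e2 : 8 / 3 * (3 / 16 / (N : ℝ)) = 1 / 2 / N := by ring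
        have e3 : 1 / 2 / (N : ℝ) ≤ 1 / N := by
          rw [div_le_div_iff_of_pos_right hN0]
          norm_num
        linarith
      have e4 : 0 ≤ a * (1 / n) := by positivity
      have e5 : 0 ≤ tq K h := by
        rw [← hv0]
        have := Finset.sum_nonneg (fun (p : Fin K) (_ : p ∈ univ) => nsq_nonneg' (v0 p))
        linarith
      nlinarith
    have hEb : Real.sqrt (nsq E) ≤ R * (a ^ 2 + 1 / N) := by
      rw [Real.sqrt_le_left (by positivity), mul_pow, hR2]
      refine hE.trans ?_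
      apply mul_le_mul_of_nonneg_left _ hC0.le
      apply pow_le_pow_left₀ hvS0
      refine hvS.trans ?_
      have e1 : 3 / 8 / (N : ℝ) ≤ 1 / N := by
        rw [div_le_div_iff_of_pos_right hN0]
        norm_num
      nlinarith [sq_nonneg a]
    have hLn := nsq_nonneg' L
    have hEn := nsq_nonneg' E
    have hmain : (N : ℝ) * nsq (fun b => L b - E b) ≤
        N * (nsq h - tq K h) + (20 * R + 10 * C0) * N * a ^ 3 + (1 + 20 * R + 10 * C0) := by
      have e1 := nsq_sub_le L E
      have e2 : (Real.sqrt (nsq L) + Real.sqrt (nsq E)) ^ 2 ≤ nsq L +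
          2 * ((a + 1 / n) * (R * (a ^ 2 + 1 / N))) + (R * (a ^ 2 + 1 / N)) ^ 2 := by
        rw [add_sq, Real.sq_sqrt hLn]
        have e3 : Real.sqrt (nsq L) * Real.sqrt (nsq E) ≤
            (a + 1 / n) * (R * (a ^ 2 + 1 / N)) :=
          mul_le_mul hLb hEb (Real.sqrt_nonneg _) (by positivity)
        have e4 : Real.sqrt (nsq E) ^ 2 ≤ (R * (a ^ 2 + 1 / N)) ^ 2 :=
          pow_le_pow_left₀ (Real.sqrt_nonneg _) hEb 2
        linarith
      have e5 : (N : ℝ) * nsq L ≤ N * (nsq h - tq K h) + 1 := by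
        rw [hL, mul_add]
        have e6 : (N : ℝ) * (8 / 3 * ∑ p, nsq (w p)) ≤ N * (8 / 3 * (3 / 16 / N)) := by
          apply mul_le_mul_of_nonneg_left _ hN0.le
          linarith
        have e7 : (N : ℝ) * (8 / 3 * (3 / 16 / N)) = 1 / 2 := by
          field_simp
          norm_num
        linarith
      -- b = n a
      have hb0 : 0 ≤ n * a := by positivity
      have e8 : (N : ℝ) * ((a + 1 / n) * (R * (a ^ 2 + 1 / N))) =
          R * (N * a ^ 3 + n * a ^ 2 + a + 1 / n) := by
        rw [← hn2]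
        field_simp
        ring
      have e9 : n * a ^ 2 ≤ 1 + N * a ^ 3 := by
        rw [← hn2]
        rcases le_total (n * a) 1 with h1 | h1
        · have : n * a ^ 2 ≤ 1 * a := by
            rw [pow_two, ← mul_assoc]
            exact mul_le_mul_of_nonneg_right h1 ha0
          have : 0 ≤ n ^ 2 * a ^ 3 := by positivity
          linarith
        · have : n * a ^ 2 * 1 ≤ n * a ^ 2 * (n * a) :=
            mul_le_mul_of_nonneg_left h1 (by positivity)
          have e10 : n * a ^ 2 * (n * a) = n ^ 2 * a ^ 3 := by ring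
          rw [e10] at this
          linarith
      have e11 : 1 / n ≤ 1 := by
        rw [div_le_one hnp]
        exact hn1
      have e12 : (N : ℝ) * ((R * (a ^ 2 + 1 / N)) ^ 2) = C0 * (N * a ^ 4 + 2 * a ^ 2 + 1 / N) := by
        rw [mul_pow, hR2]
        field_simp
        ring
      have e13 : (N : ℝ) * a ^ 4 ≤ N * a ^ 3 := by
        apply mul_le_mul_of_nonneg_left _ hN0.le
        exact pow_le_pow_of_le_one ha0 ha1 (by norm_num)
      have e14 : 1 / (N : ℝ) ≤ 1 := by
        rw [div_le_one hN0]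
        exact hN1
      have e15 : a ^ 2 ≤ 1 := by nlinarith
      have e16 : 0 ≤ (N : ℝ) * a ^ 3 := by positivity
      have e17 : R * (N * a ^ 3 + n * a ^ 2 + a + 1 / n) ≤ R * (2 * (N * a ^ 3) + 3) := by
        apply mul_le_mul_of_nonneg_left _ hR0.le
        linarith
      have e18 : C0 * (N * a ^ 4 + 2 * a ^ 2 + 1 / N) ≤ C0 * ((N * a ^ 3) + 3) := by
        apply mul_le_mul_of_nonneg_left _ hC0.le
        linarith
      have e19 : (N : ℝ) * nsq (fun b => L b - E b) ≤ N * nsq L +
          2 * (N * ((a + 1 / n) * (R * (a ^ 2 + 1 / N)))) + N * ((R * (a ^ 2 + 1 / N)) ^ 2) := by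
        have := mul_le_mul_of_nonneg_left (e1.trans e2) hN0.le
        linarith
      rw [e8, e12] at e19
      have e20 : 0 ≤ R * (N * a ^ 3) := by positivity
      have e21 : 0 ≤ C0 * (N * a ^ 3) := by positivity
      have e22 : R * (2 * (N * a ^ 3) + 3) = 2 * (R * (N * a ^ 3)) + 3 * R := by ring
      have e23 : C0 * ((N * a ^ 3) + 3) = C0 * (N * a ^ 3) + 3 * C0 := by ring
      have e24 : (20 * R + 10 * C0) * N * a ^ 3 = 20 * (R * (N * a ^ 3)) +
          10 * (C0 * (N * a ^ 3)) := by ring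
      rw [e24]
      rw [e22] at e17
      rw [e23] at e18
      linarith
    have hrho : (4 * Real.pi ^ 2)⁻¹ ^ K ≤ ∏ p, rho (v p) := by
      have h1 : ∀ p ∈ (univ : Finset (Fin K)), (4 * Real.pi ^ 2)⁻¹ ≤ rho (v p) := by
        intro p _
        unfold rho
        have h2 : nsq (v p) ≤ 1 := (Finset.single_le_sum (f := fun p => nsq (v p))
          (fun i _ => nsq_nonneg' _) (Finset.mem_univ p)).trans hvS1
        have h3 := nsq_nonneg' (v p)
        apply inv_anti₀ (by positivity)
        have h4 : (1 + nsq (v p)) ^ 2 ≤ 4 := by nlinarith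
        have h5 : 0 ≤ Real.pi ^ 2 := by positivity
        nlinarith
      have h6 := Finset.prod_le_prod (s := (univ : Finset (Fin K)))
        (f := fun _ => (4 * Real.pi ^ 2)⁻¹) (g := fun p => rho (v p))
        (fun _ _ => by positivity) h1
      simpa using h6
    rw [hm]
    have hee : Real.exp (-(N : ℝ) * (nsq h - tq K h) - (20 * R + 10 * C0) * N * a ^ 3 -
        (1 + 20 * R + 10 * C0)) ≤ Real.exp (-(N : ℝ) * nsq (fun b => u0 K b + h b -
          pt (Equiv.refl _) (fun p => Cay (v p)) b)) := by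
      rw [Real.exp_le_exp, hLE]
      linarith
    exact mul_le_mul hee hrho (by positivity) (Real.exp_pos _).le

end Pool.Agent.Helper93.T5
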